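import Mathlib

/-!
# Smooth dependence of the inverse fibre maps on the base point and the parameter
-/

set_option autoImplicit false

open Set Filter Topology
open scoped ContDiff

namespace Pool.Agent.Y965.SE

/-- Solutions of `K (p, t) = y` depend smoothly on `(p, y)`. -/
theorem contDiff_fibre {E : Type*} [NormedAddCommGroup E] [NormedSpace ℝ E] [CompleteSpace E]
    {n : WithTop ℕ∞} (hn : n ≠ 0) {K : E × ℝ → ℝ} (hK : ContDiff ℝ n K)
    (hpos : ∀ q, fderiv ℝ K q (0, 1) ≠ 0) {H : E × ℝ → ℝ}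
    (h1 : ∀ p y, K (p, H (p, y)) = y) (h2 : ∀ p t, H (p, K (p, t)) = t) : ContDiff ℝ n H := by
  set Θ : E × ℝ → E × ℝ := fun q => (q.1, K q) with hΘ
  have hΘc : ContDiff ℝ n Θ := contDiff_fst.prodMk hK
  set D : ∀ q : E × ℝ, (E × ℝ) ≃L[ℝ] (E × ℝ) := fun q =>
    ContinuousLinearEquiv.skewProd (ContinuousLinearEquiv.refl ℝ E)
      (ContinuousLinearEquiv.unitsEquivAut ℝ (Units.mk0 _ (hpos q)))
      ((fderiv ℝ K q).comp (ContinuousLinearMap.inl ℝ E ℝ)) with hD
  have hd : ∀ q, HasFDerivAt Θ (D q : (E × ℝ) →L[ℝ] (E × ℝ)) q := by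
    intro q
    have a1 : HasFDerivAt K (fderiv ℝ K q) q := (hK.differentiable hn q).hasFDerivAt
    have a2 := (hasFDerivAt_fst (𝕜 := ℝ) (p := q)).prodMk a1
    refine a2.congr_fderiv ?_
    apply ContinuousLinearMap.ext
    rintro ⟨a, c⟩
    have e1 : fderiv ℝ K q (a, c) = fderiv ℝ K q (a, 0) + c * fderiv ℝ K q (0, 1) := by
      rw [← smul_eq_mul, ← map_smul, ← map_add]
      congr 1
      ext <;> simp
    show ((a, fderiv ℝ K q (a, c)) : E × ℝ) = D q (a, c)
    rw [e1, hD]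
    simp only [ContinuousLinearEquiv.skewProd_apply]
    ext
    · simp
    · simp [add_comm]
  have hopen : IsOpenMap Θ := isOpenMap_of_hasStrictFDerivAt_equiv (f' := D)
    fun q => hΘc.contDiffAt.hasStrictFDerivAt' (hd q) hn
  set e : (E × ℝ) ≃ₜ (E × ℝ) := (Equiv.mk Θ (fun q => (q.1, H q))
    (fun q => by simp only [hΘ]; ext <;> simp [h2])
    (fun q => by simp only [hΘ]; ext <;> simp [h1])).toHomeomorphOfContinuousOpen
      hΘc.continuous hopen with he
  have h3 : ContDiff ℝ n e.symm := Homeomorph.contDiff_symm e (f₀' := D) hd hΘc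
  exact contDiff_snd.comp h3

end Pool.Agent.Y965.SE
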