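import Mathlib

/-!
# Uniform closeness of all iterated derivatives in smooth families of periodic maps
-/

set_option autoImplicit false

open Set Filter Topology
open scoped ContDiff

namespace Pool.Agent.Y965.SE

section gen
variable {P E F : Type*} [NormedAddCommGroup P] [NormedSpace ℝ P] [NormedAddCommGroup E]
  [NormedSpace ℝ E] [NormedAddCommGroup F] [NormedSpace ℝ F]

/-- joint smoothness of the iterated partial derivatives -/
lemma contDiff_iter {Φ : P → E → F} (h : ContDiff ℝ ∞ (Function.uncurry Φ)) (k : ℕ) :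
    ContDiff ℝ ∞ (fun q : P × E => iteratedFDeriv ℝ k (Φ q.1) q.2) := by
  induction k with
  | zero =>
    simp only [iteratedFDeriv_zero_eq_comp]
    exact (LinearIsometryEquiv.contDiff (𝕜 := ℝ)
      (continuousMultilinearCurryFin0 ℝ E F).symm).comp h
  | succ k ih =>
    simp only [iteratedFDeriv_succ_eq_comp_left]
    have hL : ContDiff ℝ ∞ (continuousMultilinearCurryLeftEquiv ℝ (fun _ : Fin (k + 1) => E) F).symm :=
      LinearIsometryEquiv.contDiff (𝕜 := ℝ) (E := E →L[ℝ] (E [×k]→L[ℝ] F))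
        (F := E [×(k + 1)]→L[ℝ] F)
      (continuousMultilinearCurryLeftEquiv ℝ (fun _ : Fin (k + 1) => E) F).symm
    refine hL.comp ?_
    refine ContDiff.fderiv (m := ∞) (f := fun (q : P × E) (x : E) => iteratedFDeriv ℝ k (Φ q.1) x)
      ?_ contDiff_snd (by exact le_of_eq rfl)
    exact ih.comp ((contDiff_fst.comp contDiff_fst).prodMk contDiff_snd)

end gen

/-- reduction of a point of the plane to the unit square -/
lemma per_red {W : Type*} {u : ℝ × ℝ → W} (h1 : ∀ z : ℝ × ℝ, u (z + (1, 0)) = u z)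
    (h2 : ∀ z : ℝ × ℝ, u (z + (0, 1)) = u z) (z : ℝ × ℝ) :
    ∃ y ∈ Icc (0 : ℝ × ℝ) 1, u y = u z := by
  have a1 : ∀ (n : ℕ) (z : ℝ × ℝ), u (z + ((n : ℝ), (0 : ℝ))) = u z := by
    intro n
    induction n with
    | zero => intro z; congr 1; ext <;> simp
    | succ n ih =>
      intro z
      have : z + (((n + 1 : ℕ) : ℝ), (0 : ℝ)) = (z + ((n : ℝ), (0 : ℝ))) + (1, 0) := by
        ext <;> simp [add_assoc]
      rw [this, h1, ih]
  have a2 : ∀ (n : ℕ) (z : ℝ × ℝ), u (z + ((0 : ℝ), (n : ℝ))) = u z := by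
    intro n
    induction n with
    | zero => intro z; congr 1; ext <;> simp
    | succ n ih =>
      intro z
      have : z + ((0 : ℝ), ((n + 1 : ℕ) : ℝ)) = (z + ((0 : ℝ), (n : ℝ))) + (0, 1) := by
        ext <;> simp [add_assoc]
      rw [this, h2, ih]
  have b1 : ∀ (n : ℤ) (z : ℝ × ℝ), u (z + ((n : ℝ), (0 : ℝ))) = u z := by
    intro n z
    obtain ⟨m, rfl | rfl⟩ := n.eq_nat_or_neg
    · exact_mod_cast a1 m z
    · have := a1 m (z + (((-(m : ℤ) : ℤ) : ℝ), (0 : ℝ)))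
      rw [← this]
      congr 1
      ext <;> simp
  have b2 : ∀ (n : ℤ) (z : ℝ × ℝ), u (z + ((0 : ℝ), (n : ℝ))) = u z := by
    intro n z
    obtain ⟨m, rfl | rfl⟩ := n.eq_nat_or_neg
    · exact_mod_cast a2 m z
    · have := a2 m (z + ((0 : ℝ), ((-(m : ℤ) : ℤ) : ℝ)))
      rw [← this]
      congr 1
      ext <;> simp
  refine ⟨(Int.fract z.1, Int.fract z.2), ⟨⟨Int.fract_nonneg _, Int.fract_nonneg _⟩,
    ⟨(Int.fract_lt_one _).le, (Int.fract_lt_one _).le⟩⟩, ?_⟩
  rw [← b1 ⌊z.1⌋, ← b2 ⌊z.2⌋]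
  congr 1
  ext <;> simp

/-- In a smooth family of maps of the plane whose differences are periodic, all derivatives up to a
given order are uniformly close. -/
theorem close {Φ : ℝ → ℝ × ℝ → ℝ × ℝ} (h : ContDiff ℝ ∞ (Function.uncurry Φ)) {c : ℝ}
    (h1 : ∀ e z, Φ e (z + (1, 0)) - Φ c (z + (1, 0)) = Φ e z - Φ c z)
    (h2 : ∀ e z, Φ e (z + (0, 1)) - Φ c (z + (0, 1)) = Φ e z - Φ c z)
    (k : ℕ) {ε : ℝ} (hε : 0 < ε) :
    ∀ᶠ e in 𝓝 c, ∀ z, ‖iteratedFDeriv ℝ k (Φ c) z - iteratedFDeriv ℝ k (Φ e) z‖ < ε := by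
  have hs : ∀ e, ContDiff ℝ ∞ (Φ e) := fun e =>
    h.comp (contDiff_const.prodMk contDiff_id)
  have hcont : Continuous fun q : ℝ × (ℝ × ℝ) =>
      ‖iteratedFDeriv ℝ k (Φ c) q.2 - iteratedFDeriv ℝ k (Φ q.1) q.2‖ := by
    have a1 := (contDiff_iter h k).continuous
    have a2 : Continuous fun q : ℝ × (ℝ × ℝ) => iteratedFDeriv ℝ k (Φ c) q.2 :=
      ((hs c).continuous_iteratedFDeriv (by exact_mod_cast le_top)).comp continuous_snd
    exact (a2.sub a1).norm
  have hK : IsCompact (Icc (0 : ℝ × ℝ) 1) := isCompact_Icc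
  have key : ∀ᶠ e in 𝓝 c, ∀ z ∈ Icc (0 : ℝ × ℝ) 1,
      ‖iteratedFDeriv ℝ k (Φ c) z - iteratedFDeriv ℝ k (Φ e) z‖ < ε := by
    refine hK.eventually_forall_of_forall_eventually (P := fun e z =>
      ‖iteratedFDeriv ℝ k (Φ c) z - iteratedFDeriv ℝ k (Φ e) z‖ < ε) ?_
    intro z _
    refine hcont.continuousAt.eventually_lt continuousAt_const ?_
    simpa using hε
  have hper : ∀ (e : ℝ) (v : ℝ × ℝ), (∀ z, Φ e (z + v) - Φ c (z + v) = Φ e z - Φ c z) →
      ∀ z, iteratedFDeriv ℝ k (Φ c) (z + v) - iteratedFDeriv ℝ k (Φ e) (z + v)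
        = iteratedFDeriv ℝ k (Φ c) z - iteratedFDeriv ℝ k (Φ e) z := by
    intro e v hv z
    have e1 : ∀ z, iteratedFDeriv ℝ k (Φ c - Φ e) z
        = iteratedFDeriv ℝ k (Φ c) z - iteratedFDeriv ℝ k (Φ e) z := fun z => by
      exact iteratedFDeriv_sub_apply (((hs c).of_le (by exact_mod_cast le_top)).contDiffAt)
        (((hs e).of_le (by exact_mod_cast le_top)).contDiffAt)
    rw [← e1, ← e1, ← iteratedFDeriv_comp_add_right]
    congr 1
    funext z
    have := hv z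
    show (Φ c - Φ e) (z + v) = (Φ c - Φ e) z
    simp only [Pi.sub_apply]
    rw [← neg_sub, this, neg_sub]
  filter_upwards [key] with e he z
  obtain ⟨y, hy, hyz⟩ := per_red
    (u := fun z => iteratedFDeriv ℝ k (Φ c) z - iteratedFDeriv ℝ k (Φ e) z)
    (hper e _ (h1 e)) (hper e _ (h2 e)) z
  have := he y hy
  rwa [hyz] at this

end Pool.Agent.Y965.SE
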