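import Pool.Agent.H165R3.Fam3
import Pool.Agent.Y965.SE.Smooth
import Pool.Agent.Y965.SE.Fibre

/-!
# The family with a neutral invariant circle, every degree at least three
-/

set_option autoImplicit false

open Set Filter Topology MeasureTheory Function
open scoped ContDiff ENNReal Real

namespace Pool.Agent.Y965.SE

open Pool.Agent.H165R3

/-- the sum over the branches vanishes -/
lemma cosd {d : ℕ} (hd : 2 ≤ d) (x : ℝ) :
    ∑ i ∈ Finset.range d, Real.cos (2 * π * (x + i) / d) = 0 := by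
  have hd0 : (d : ℝ) ≠ 0 := by positivity
  have hdc : (d : ℂ) ≠ 0 := by exact_mod_cast hd0
  have h := (Complex.isPrimitiveRoot_exp d (by omega)).geom_sum_eq_zero (by omega)
  have h1 : ∀ i : ℕ, Real.cos (2 * π * (x + i) / d) =
      (Complex.exp ((2 * π * x / d : ℝ) * Complex.I) *
        Complex.exp (2 * π * Complex.I / d) ^ i).re := by
    intro i
    rw [← Complex.exp_nat_mul, ← Complex.exp_add, ← Complex.exp_ofReal_mul_I_re]
    congr 2
    push_cast
    field_simp
  simp only [h1]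
  rw [← Complex.re_sum, ← Finset.mul_sum, h, mul_zero, Complex.zero_re]

lemma kapd_pos (c y : ℝ) (hc : |c| ≤ 1) : 1 / 3 < 1 + π / 5 * c * Real.sin (2 * π * y) := by
  have h1 := Real.pi_lt_d2
  have h2 := Real.pi_pos
  have h3 : |c * Real.sin (2 * π * y)| ≤ 1 := by
    rw [abs_mul]
    have := Real.abs_sin_le_one (2 * π * y)
    nlinarith [abs_nonneg c, abs_nonneg (Real.sin (2 * π * y))]
  have h4 := (abs_le.mp h3).1
  nlinarith

/-- the fixed point free involution `(x, y) ↦ (x + 1/2, -y)` -/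
noncomputable def flp (w : T2) : T2 := (w.1 + ((1 / 2 : ℝ) : UnitAddCircle), -w.2)

lemma flp_pr (z : ℝ × ℝ) : flp (pr z) = pr (z.1 + 1 / 2, -z.2) := by
  simp [flp, pr]

variable {d : ℕ}

/-- the family -/
noncomputable def nD (hd : 3 ≤ d) (e : ℝ) : Sk where
  d := d
  m := 1
  hd := by omega
  hm := by norm_num
  G x := x / d
  p _ := 1 / d
  k z := z.2 + 1 / 10 * Real.cos (2 * π * z.1 / d) * (e - Real.cos (2 * π * z.2))
  κ z := 1 + π / 5 * Real.cos (2 * π * z.1 / d) * Real.sin (2 * π * z.2)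
  hG := by fun_prop
  hGp x := by simpa using (hasDerivAt_id x).div_const (d : ℝ)
  hp _ := by positivity
  hGd x := by
    have : (d : ℝ) ≠ 0 := by positivity
    field_simp
  hk := by fun_prop
  hkκ x y := by
    have h1 : HasDerivAt (fun t : ℝ => Real.cos (2 * π * t)) (-Real.sin (2 * π * y) * (2 * π)) y := by
      have h := ((hasDerivAt_id y).const_mul (2 * π))
      simp only [id_eq, mul_one] at h
      exact h.cos
    have h2 := (hasDerivAt_id y).add ((h1.const_sub e).const_mul (1 / 10 * Real.cos (2 * π * x / d)))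
    refine HasDerivAt.congr_deriv (f := fun t => (x, t).2 + 1 / 10 * Real.cos (2 * π * (x, t).1 / d) *
      (e - Real.cos (2 * π * (x, t).2))) h2 ?_
    simp only
    ring
  hκ z := by have := kapd_pos _ z.2 (Real.abs_cos_le_one (2 * π * z.1 / d)); linarith
  hkd x y := by
    simp only
    have : (d : ℝ) ≠ 0 := by positivity
    have : 2 * π * (x + d) / d = 2 * π * x / d + 2 * π := by field_simp
    rw [this, Real.cos_add_two_pi]
  hkm x y := by
    simp only
    have : 2 * π * (y + (1 : ℕ)) = 2 * π * y + 2 * π := by push_cast; ring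
    rw [this, Real.cos_add_two_pi]
    push_cast
    ring
  hsum x y := by
    simp only [Finset.range_one, Finset.sum_singleton, Nat.cast_zero, add_zero]
    have h0 : (d : ℝ) ≠ 0 := by positivity
    have := cosd (d := d) (by omega) x
    have h1 : ∀ i : ℕ, 1 / (d : ℝ) * (1 + π / 5 * Real.cos (2 * π * (x + i) / d) *
        Real.sin (2 * π * y)) = 1 / d + (1 / d * (π / 5) * Real.sin (2 * π * y)) *
          Real.cos (2 * π * (x + i) / d) := fun i => by ring
    simp only [h1]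
    rw [Finset.sum_add_distrib, ← Finset.mul_sum, this]
    simp [h0]

variable (hd : 3 ≤ d) (e : ℝ)

lemma nD_k (z : ℝ × ℝ) : (nD hd e).k z = z.2 + 1 / 10 * Real.cos (2 * π * z.1 / d) *
    (e - Real.cos (2 * π * z.2)) := rfl
lemma nD_κ (z : ℝ × ℝ) : (nD hd e).κ z = 1 + π / 5 * Real.cos (2 * π * z.1 / d) *
    Real.sin (2 * π * z.2) := rfl
lemma nD_p (x : ℝ) : (nD hd e).p x = 1 / d := rfl
lemma nD_G (x : ℝ) : (nD hd e).G x = x / d := rfl
lemma nD_d : (nD hd e).d = d := rfl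
lemma nD_m : (nD hd e).m = 1 := rfl

lemma d0 (hd : 3 ≤ d) : (0 : ℝ) < d := by positivity

lemma nD_g (x : ℝ) : (nD hd e).g x = d * x := by
  have h := (nD hd e).G_g x
  rw [nD_G] at h
  have := d0 hd
  field_simp at h
  linarith

lemma nD_F (z : ℝ × ℝ) : (nD hd e).F z = (d * z.1, (nD hd e).h z) := by rw [Sk.F_eq, nD_g]

lemma nD_a (z : ℝ × ℝ) : (nD hd e).a z = d := by unfold Sk.a; rw [nD_p]; simp

/-- two consecutive branches do not vanish together -/
lemma cosd_ne (hd : 3 ≤ d) (x : ℝ) : Real.cos (2 * π * (x + (0 : ℕ)) / d) ≠ 0 ∨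
    Real.cos (2 * π * (x + (1 : ℕ)) / d) ≠ 0 := by
  by_contra hcon
  push Not at hcon
  obtain ⟨h0, h1⟩ := hcon
  have hd' := d0 hd
  have e1 : 2 * π * (x + (1 : ℕ)) / d = 2 * π * (x + (0 : ℕ)) / d + 2 * π / d := by
    push_cast; field_simp; ring
  rw [e1, Real.cos_add, h0, zero_mul, zero_sub, neg_eq_zero] at h1
  have h2 := Real.sin_sq_add_cos_sq (2 * π * (x + (0 : ℕ)) / d)
  rw [h0] at h2
  rcases mul_eq_zero.mp h1 with h | h
  · rw [h] at h2
    norm_num at h2
  · have a1 : 0 < 2 * π / d := by have := Real.pi_pos; positivity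
    have a2 : 2 * π / d < π := by
      have := Real.pi_pos
      have hd3 : (3 : ℝ) ≤ d := by exact_mod_cast hd
      rw [div_lt_iff₀ hd']
      nlinarith
    exact (Real.sin_pos_of_pos_of_lt_pi a1 a2).ne' h

lemma nD_fix : (nD hd 1).Fix where
  m1 := rfl
  k0 x := by rw [nD_k]; simp
  nd x y hy := by
    have h1 : 1 - Real.cos (2 * π * y) ≠ 0 := by
      intro h
      have h2 : Real.cos (2 * π * y) = 1 := by linarith
      rw [Real.cos_eq_one_iff] at h2
      obtain ⟨n, hn⟩ := h2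
      have h3 : (n : ℝ) = y := by
        have := Real.pi_pos
        have h4 : (n : ℝ) * (2 * π) = y * (2 * π) := by linarith
        exact mul_right_cancel₀ (by positivity) h4
      rw [← h3] at hy
      have h4 : (0 : ℤ) < n := by exact_mod_cast hy.1
      have h5 : n < (1 : ℤ) := by exact_mod_cast hy.2
      omega
    rcases cosd_ne hd x with h | h
    · refine ⟨0, by rw [nD_d]; simp; omega, ?_⟩
      rw [nD_k]
      intro h2
      apply mul_ne_zero (mul_ne_zero (by norm_num : (1 / 10 : ℝ) ≠ 0) h) h1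
      simp only at h2
      linarith
    · refine ⟨1, by rw [nD_d]; simp; omega, ?_⟩
      rw [nD_k]
      intro h2
      apply mul_ne_zero (mul_ne_zero (by norm_num : (1 / 10 : ℝ) ≠ 0) h) h1
      simp only at h2
      linarith

lemma nD_exp : (nD hd e).Exp where
  d2 := by rw [nD_d]; omega
  sp x := by
    have := d0 hd
    simp only [nD_d, nD_p]
    rw [Finset.sum_const, Finset.card_range, nsmul_eq_mul]
    field_simp

theorem nD_ergodic : Ergodic (nD hd 1).f (volume : Measure T2) :=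
  (nD_fix hd).ergodic (nD_exp hd 1).ergodic_gA

/-- strict negativity of the conditional fibre exponent -/
lemma nD_J_neg (z : ℝ × ℝ) (hz : Real.sin (2 * π * z.2) ≠ 0) : (nD hd e).J z < 0 := by
  have hle : ∀ i ∈ Finset.range (nD hd e).d,
      Real.negMulLog ((nD hd e).κ (z.1 + i, z.2)) * (nD hd e).p (z.1 + i)
      ≤ (1 - (nD hd e).κ (z.1 + i, z.2)) * (nD hd e).p (z.1 + i) := by
    intro i _
    refine mul_le_mul_of_nonneg_right ?_ ((nD hd e).hp _).le
    exact Real.negMulLog_le_one_sub_self ((nD hd e).hκ _).le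
  have hlt : ∃ i ∈ Finset.range (nD hd e).d,
      Real.negMulLog ((nD hd e).κ (z.1 + i, z.2)) * (nD hd e).p (z.1 + i)
      < (1 - (nD hd e).κ (z.1 + i, z.2)) * (nD hd e).p (z.1 + i) := by
    have key : ∀ i : ℕ, Real.cos (2 * π * (z.1 + i) / d) ≠ 0 →
      Real.negMulLog ((nD hd e).κ (z.1 + i, z.2)) * (nD hd e).p (z.1 + i)
      < (1 - (nD hd e).κ (z.1 + i, z.2)) * (nD hd e).p (z.1 + i) := by
      intro i hi
      refine mul_lt_mul_of_pos_right ?_ ((nD hd e).hp _)
      set t := (nD hd e).κ (z.1 + i, z.2) with ht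
      have h0 : 0 < t := (nD hd e).hκ _
      have h1 : t⁻¹ ≠ 1 := by
        intro h
        rw [inv_eq_one] at h
        rw [nD_κ] at ht
        simp only at ht
        have : π / 5 * Real.cos (2 * π * (z.1 + i) / d) * Real.sin (2 * π * z.2) = 0 := by linarith
        exact mul_ne_zero (mul_ne_zero (by positivity) hi) hz this
      have h2 := Real.log_lt_sub_one_of_pos (inv_pos.mpr h0) h1
      rw [Real.log_inv] at h2
      unfold Real.negMulLog
      have h3 := mul_lt_mul_of_pos_left h2 h0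
      rw [mul_sub, mul_inv_cancel₀ h0.ne'] at h3
      linarith
    rcases cosd_ne hd z.1 with h | h
    · exact ⟨0, by rw [nD_d]; simp; omega, key 0 h⟩
    · exact ⟨1, by rw [nD_d]; simp; omega, key 1 h⟩
  have h1 := Finset.sum_lt_sum hle hlt
  have h2 : ∑ i ∈ Finset.range (nD hd e).d,
      (1 - (nD hd e).κ (z.1 + i, z.2)) * (nD hd e).p (z.1 + i) = 0 := by
    have h3 := (nD hd e).hsum z.1 z.2
    simp only [nD_m, Finset.range_one, Finset.sum_singleton, Nat.cast_zero, add_zero] at h3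
    have h4 := (nD_exp hd e).sp z.1
    have h5 : ∀ i : ℕ, (1 - (nD hd e).κ (z.1 + i, z.2)) * (nD hd e).p (z.1 + i)
      = (nD hd e).p (z.1 + i) - (nD hd e).p (z.1 + i) * (nD hd e).κ (z.1 + i, z.2) := fun i => by ring
    simp only [h5]
    rw [Finset.sum_sub_distrib, h3, h4, sub_self]
  rw [h2] at h1
  exact h1

/-- the fibre maps fix `±δ` -/
lemma nD_k_fix {δ : ℝ} (x y : ℝ) (hy : Real.cos (2 * π * y) = Real.cos (2 * π * δ)) :
    (nD hd (Real.cos (2 * π * δ))).k (x, y) = y := by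
  rw [nD_k]
  simp only [hy, sub_self, mul_zero, add_zero]

/-- the invariant annulus -/
theorem nD_annulus {δ : ℝ} (h0 : 0 < δ) (h1 : δ < 1 / 2) :
    ∃ A B : Set T2, IsOpen A ∧ IsOpen B ∧ A.Nonempty ∧ B.Nonempty ∧ B ⊆ Aᶜ ∧
      (nD hd (Real.cos (2 * π * δ))).f ⁻¹' A = A ∧ flp ⁻¹' A = A ∧ flp ⁻¹' B = B := by
  set s := nD hd (Real.cos (2 * π * δ)) with hs
  set A : Set T2 := {w | rep w.2 ∈ Ioo δ (1 - δ)} with hA
  have hkey : ∀ x h : ℝ, s.k (x, h) ∈ Ioo δ (1 - δ) ↔ h ∈ Ioo δ (1 - δ) := by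
    intro x h
    have e1 : s.k (x, δ) = δ := nD_k_fix hd x δ rfl
    have e2 : s.k (x, 1 - δ) = 1 - δ := nD_k_fix hd x (1 - δ) (by
      rw [show 2 * π * (1 - δ) = 2 * π - 2 * π * δ by ring, Real.cos_two_pi_sub])
    have hmono := s.k_strictMono x
    have a1 := hmono.lt_iff_lt (a := δ) (b := h)
    have a2 := hmono.lt_iff_lt (a := h) (b := 1 - δ)
    simp only [e1, e2] at a1 a2
    rw [mem_Ioo, mem_Ioo, a1, a2]
  have hh : ∀ z : ℝ × ℝ, ∀ n : ℤ, s.h (z.1, z.2 - n) = s.h z - n := by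
    intro z n
    have hper : ∀ y, s.h (z.1, y + 1) - (y + 1) = s.h (z.1, y) - y := by
      intro y
      have := s.F_add_one_right z.1 y
      have h2 := congrArg Prod.snd this
      simp only [] at h2
      show (s.F (z.1, y + 1)).2 - (y + 1) = (s.F (z.1, y)).2 - y
      rw [h2]
      have : (s.m : ℝ) = 1 := by rw [hs, nD_m]; norm_num
      rw [this]
      ring
    have := per_int (u := fun y => s.h (z.1, y) - y) hper z.2 (-n)
    push_cast at this
    simp only [← sub_eq_add_neg] at this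
    have h3 : s.h (z.1, z.2) = s.h z := rfl
    rw [h3] at this
    linarith
  have hinv : s.f ⁻¹' A = A := by
    ext w
    obtain ⟨z, rfl⟩ := pr_surj w
    rw [mem_preimage, s.f_pr]
    show rep ((s.F z).2 : UnitAddCircle) ∈ Ioo δ (1 - δ) ↔ rep (z.2 : UnitAddCircle) ∈ Ioo δ (1 - δ)
    rw [mem_rep_iff h0.le (by linarith), mem_rep_iff h0.le (by linarith)]
    refine exists_congr fun n => ?_
    show s.h z - n ∈ Ioo δ (1 - δ) ↔ _
    rw [← hh z n, ← hkey (s.g z.1)]
    have := s.k_gh (z.1, z.2 - n)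
    simp only at this
    rw [this]
  have hAimg : A = pr '' (univ ×ˢ Ioo δ (1 - δ)) := by
    ext w
    obtain ⟨z, rfl⟩ := pr_surj w
    show rep (z.2 : UnitAddCircle) ∈ Ioo δ (1 - δ) ↔ _
    rw [mem_rep_iff h0.le (by linarith)]
    constructor
    · rintro ⟨n, hn⟩
      refine ⟨(z.1, z.2 - n), ⟨mem_univ _, hn⟩, ?_⟩
      have := pr_add_right z.1 (z.2 - n) n
      rw [← this]
      simp
    · rintro ⟨z', ⟨-, hz'⟩, he⟩
      have h2 : ((z'.2 : ℝ) : UnitAddCircle) = z.2 := congrArg Prod.snd he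
      obtain ⟨n, hn⟩ := coe_eq_iff.mp h2
      exact ⟨-n, by push_cast; rw [sub_neg_eq_add, ← hn]; exact hz'⟩
  have hAo : IsOpen A := by
    rw [hAimg]
    exact pr_quot.isOpenMap _ (isOpen_univ.prod isOpen_Ioo)
  have hAne : A.Nonempty := by
    rw [hAimg]
    exact ⟨pr (0, 1 / 2), (0, 1 / 2), ⟨mem_univ _, by constructor <;> simp only <;> linarith⟩, rfl⟩
  have hBo : IsOpen (pr '' (univ ×ˢ Ioo (-δ) δ)) :=
    pr_quot.isOpenMap _ (isOpen_univ.prod isOpen_Ioo)
  have hBne : (pr '' (univ ×ˢ Ioo (-δ) δ)).Nonempty :=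
    ⟨pr (0, 0), (0, 0), ⟨mem_univ _, by constructor <;> simp only <;> linarith⟩, rfl⟩
  have hBsub : pr '' (univ ×ˢ Ioo (-δ) δ) ⊆ Aᶜ := by
    rintro w ⟨z, ⟨-, hz⟩, rfl⟩ hw
    have h2 : rep (z.2 : UnitAddCircle) ∈ Ioo δ (1 - δ) := hw
    rw [mem_rep_iff h0.le (by linarith)] at h2
    obtain ⟨n, hn⟩ := h2
    have hz1 := hz.1
    have hz2 := hz.2
    have hn1 := hn.1
    have hn2 := hn.2
    have a1 : (n : ℝ) < 0 := by linarith
    have a2 : (-1 : ℝ) < n := by linarith
    have a3 : n < 0 := by exact_mod_cast a1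
    have a4 : -1 < n := by exact_mod_cast a2
    omega
  refine ⟨A, _, hAo, hBo, hAne, hBne, hBsub, hinv, ?_, ?_⟩
  · ext w
    obtain ⟨z, rfl⟩ := pr_surj w
    rw [mem_preimage, flp_pr]
    show rep ((-z.2 : ℝ) : UnitAddCircle) ∈ Ioo δ (1 - δ) ↔ rep (z.2 : UnitAddCircle) ∈ Ioo δ (1 - δ)
    rw [mem_rep_iff h0.le (by linarith), mem_rep_iff h0.le (by linarith)]
    constructor
    · rintro ⟨n, hn1, hn2⟩
      refine ⟨-n - 1, ?_, ?_⟩ <;> push_cast <;> linarith
    · rintro ⟨n, hn1, hn2⟩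
      refine ⟨-n - 1, ?_, ?_⟩ <;> push_cast <;> linarith
  · have hB : ∀ z, pr z ∈ pr '' (univ ×ˢ Ioo (-δ) δ) → flp (pr z) ∈ pr '' (univ ×ˢ Ioo (-δ) δ) := by
      rintro z ⟨z', ⟨-, hz'⟩, he⟩
      rw [← he, flp_pr]
      exact ⟨_, ⟨mem_univ _, by constructor <;> simp only <;> linarith [hz'.1, hz'.2]⟩, rfl⟩
    ext w
    obtain ⟨z, rfl⟩ := pr_surj w
    constructor
    · intro h
      rw [mem_preimage] at h
      rw [flp_pr] at h
      have h2 := hB _ h
      rw [flp_pr] at h2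
      have e : pr (z.1 + 1 / 2 + 1 / 2, - -z.2) = pr z := by
        have := pr_add_left z.1 z.2 1
        push_cast at this
        rw [neg_neg, ← show z.1 + 1 = z.1 + 1 / 2 + 1 / 2 by ring, this]
      simp only at h2
      rwa [e] at h2
    · exact hB z

theorem nD_not_ergodic {δ : ℝ} (h0 : 0 < δ) (h1 : δ < 1 / 2) :
    ¬ Ergodic (nD hd (Real.cos (2 * π * δ))).f (volume : Measure T2) := by
  intro herg
  obtain ⟨A, B, hAo, hBo, hAne, hBne, hBsub, hinv, -, -⟩ := nD_annulus hd h0 h1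
  have h2 := herg.toPreErgodic.ae_empty_or_univ hAo.measurableSet hinv
  rcases h2 with h2 | h2
  · have h3 : volume A = 0 := by rw [measure_congr h2, measure_empty]
    exact (hAo.measure_pos volume hAne).ne' h3
  · have h3 : volume Aᶜ = 0 := by
      have := eventuallyEq_univ.mp h2
      exact this
    exact (hBo.measure_pos volume hBne).ne' (measure_mono_null hBsub h3)

theorem nD_not_transitive {δ : ℝ} (h0 : 0 < δ) (h1 : δ < 1 / 2) :
    ¬ ∃ w, Dense (range fun n : ℕ => (nD hd (Real.cos (2 * π * δ))).f^[n] w) := by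
  rintro ⟨w, hw⟩
  obtain ⟨A, B, hAo, hBo, hAne, hBne, hBsub, hinv, -, -⟩ := nD_annulus hd h0 h1
  have hit : ∀ n, (nD hd (Real.cos (2 * π * δ))).f^[n] ⁻¹' A = A := by
    intro n
    induction n with
    | zero => rfl
    | succ n ih => rw [iterate_succ, preimage_comp, ih, hinv]
  obtain ⟨x, hxA, ⟨n, rfl⟩⟩ := hw.inter_open_nonempty A hAo hAne
  obtain ⟨y, hyB, ⟨m, rfl⟩⟩ := hw.inter_open_nonempty B hBo hBne
  have h2 : w ∈ A := by rw [← hit n]; exact hxA
  have h3 : w ∉ A := by rw [← hit m]; exact hBsub hyB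
  exact h3 h2

/-- the maps are not injective -/
lemma nD_not_inj (δ : ℝ) : ¬ Injective (nD hd (Real.cos (2 * π * δ))).f := by
  set s := nD hd (Real.cos (2 * π * δ)) with hs
  intro hinj
  have hfix : ∀ x, s.h (x, δ) = δ := by
    intro x
    apply (s.k_strictMono (s.g x)).injective
    have := s.k_gh (x, δ)
    simp only at this ⊢
    rw [this]
    exact (nD_k_fix hd _ δ rfl).symm
  have hd' := d0 hd
  have hd3 : (3 : ℝ) ≤ d := by exact_mod_cast hd
  have h1 : s.f (pr (0, δ)) = s.f (pr (1 / d, δ)) := by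
    rw [s.f_pr, s.f_pr, hs, nD_F, nD_F, ← hs, hfix, hfix]
    have := pr_add_left 0 δ 1
    push_cast at this
    simp only [mul_zero]
    rw [← this]
    congr 2
    field_simp
    simp
  have h2 := hinj h1
  have h3 : ((0 : ℝ) : UnitAddCircle) = ((1 / d : ℝ) : UnitAddCircle) := congrArg Prod.fst h2
  obtain ⟨n, hn⟩ := coe_eq_iff.mp h3
  have b1 : 0 < 1 / (d : ℝ) := by positivity
  have b2 : 1 / (d : ℝ) < 1 := by
    rw [div_lt_one hd']; linarith
  have a1 : (n : ℝ) < 0 := by linarith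
  have a2 : (-1 : ℝ) < n := by linarith
  have a3 : n < 0 := by exact_mod_cast a1
  have a4 : -1 < n := by exact_mod_cast a2
  omega

/-- almost every point has `sin (2 π y) ≠ 0` -/
lemma nD_J_ae : ∀ᵐ w ∂(volume : Measure T2), tl (nD hd e).J w < 0 := by
  have h1 : ∀ᵐ b ∂(volume : Measure UnitAddCircle), b ≠ ((0 : ℝ) : UnitAddCircle) ∧
      b ≠ ((1 / 2 : ℝ) : UnitAddCircle) := by
    have h2 : ∀ c : UnitAddCircle, ∀ᵐ b ∂(volume : Measure UnitAddCircle), b ≠ c := fun c => by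
      have h3 : volume ({c} : Set UnitAddCircle) = 0 := by
        rw [← Metric.closedBall_zero, AddCircle.volume_closedBall]
        simp
      rw [ae_iff]
      simpa using h3
    exact (h2 _).and (h2 _)
  have h2 : ∀ᵐ w ∂(volume : Measure T2), w.2 ≠ ((0 : ℝ) : UnitAddCircle) ∧
      w.2 ≠ ((1 / 2 : ℝ) : UnitAddCircle) :=
    (Measure.quasiMeasurePreserving_snd (μ := (volume : Measure UnitAddCircle))
      (ν := (volume : Measure UnitAddCircle))).ae h1
  filter_upwards [h2] with w hw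
  apply nD_J_neg
  simp only
  intro hsin
  rw [Real.sin_eq_zero_iff] at hsin
  obtain ⟨n, hn⟩ := hsin
  have h3 : rep w.2 = n / 2 := by
    have := Real.pi_pos
    have h4 : (n : ℝ) = 2 * rep w.2 := by
      have h5 : (n : ℝ) * π = (2 * rep w.2) * π := by linarith
      exact mul_right_cancel₀ this.ne' h5
    linarith
  have h4 := rep_mem w.2
  rw [h3] at h4
  have a1 : (0 : ℝ) < n := by linarith [h4.1]
  have a2 : (n : ℝ) ≤ 2 := by linarith [h4.2]
  have a3 : 0 < n := by exact_mod_cast a1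
  have a4 : n ≤ 2 := by exact_mod_cast a2
  have h5 := coe_rep w.2
  rw [h3] at h5
  have a5 : n = 1 ∨ n = 2 := by omega
  rcases a5 with rfl | rfl
  · apply hw.2
    rw [← h5]
    norm_num
  · apply hw.1
    rw [← h5]
    exact coe_eq_iff.mpr ⟨1, by norm_num⟩

theorem nD_nuh : ∀ᵐ w ∂(volume : Measure T2), ∀ z : ℝ × ℝ, pr z = w → ∃ χm χp : ℝ, χm < 0 ∧ 0 < χp ∧
      Tendsto (fun n : ℕ => (1 / (n : ℝ)) * Real.log ‖fderiv ℝ ((nD hd e).F^[n]) z‖) atTop (𝓝 χp) ∧
      Tendsto (fun n : ℕ => (1 / (n : ℝ)) * Real.log (conorm (fderiv ℝ ((nD hd e).F^[n]) z))) atTop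
        (𝓝 χm) :=
  Sk.nuh (s := nD hd e) rfl (nD_J_ae hd e) (la := Real.log d)
    (Real.log_pos (by have : (3 : ℝ) ≤ d := by exact_mod_cast hd
                      linarith))
    fun z => by rw [nD_a]

/-- the family depends analytically on the point and on the parameter -/
theorem nD_contDiff : ContDiff ℝ ω (uncurry fun (e : ℝ) (z : ℝ × ℝ) => (nD hd e).F z) := by
  have hd' := d0 hd
  set K : (ℝ × ℝ) × ℝ → ℝ := fun q =>
    q.2 + 1 / 10 * Real.cos (2 * π * q.1.2 / d) * (q.1.1 - Real.cos (2 * π * q.2)) with hK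
  set H : (ℝ × ℝ) × ℝ → ℝ := fun q => (nD hd q.1.1).h (q.1.2 / d, q.2) with hH
  have hKc : ContDiff ℝ ω K := by rw [hK]; fun_prop
  have k1 : ∀ p t, K (p, t) = (nD hd p.1).k (p.2, t) := fun p t => rfl
  have c1 : ∀ p y, K (p, H (p, y)) = y := by
    intro p y
    rw [k1]
    have := (nD hd p.1).k_gh (p.2 / d, y)
    rw [nD_g] at this
    simp only at this
    rw [mul_div_cancel₀ _ hd'.ne'] at this
    exact this
  have c2 : ∀ p t, H (p, K (p, t)) = t := by
    intro p t
    apply ((nD hd p.1).k_strictMono p.2).injective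
    show (nD hd p.1).k (p.2, H (p, K (p, t))) = (nD hd p.1).k (p.2, t)
    rw [← k1, ← k1, c1]
  have hpos : ∀ q, fderiv ℝ K q (0, 1) ≠ 0 := by
    rintro ⟨p, t⟩
    have a1 : HasFDerivAt K (fderiv ℝ K (p, t)) (p, t) :=
      (hKc.differentiable (by simp) _).hasFDerivAt
    have a2 : HasDerivAt (fun t : ℝ => (p, t)) ((0 : ℝ × ℝ), (1 : ℝ)) t :=
      (hasDerivAt_const t p).prodMk (hasDerivAt_id t)
    have a3 := a1.comp_hasDerivAt t a2
    have a4 := (nD hd p.1).hkκ p.2 t
    have a5 := a3.unique a4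
    rw [a5]
    exact ((nD hd p.1).hκ _).ne'
  have hHc : ContDiff ℝ ω H := contDiff_fibre (by simp) hKc hpos c1 c2
  have h3 : (uncurry fun (e : ℝ) (z : ℝ × ℝ) => (nD hd e).F z)
      = fun q : ℝ × (ℝ × ℝ) => (d * q.2.1, H ((q.1, d * q.2.1), q.2.2)) := by
    funext q
    show (nD hd q.1).F q.2 = _
    rw [nD_F, hH]
    simp only
    rw [mul_div_cancel_left₀ _ hd'.ne']
  rw [h3]
  have h4 : ContDiff ℝ ω fun q : ℝ × (ℝ × ℝ) => H ((q.1, d * q.2.1), q.2.2) :=
    hHc.comp (by fun_prop)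
  exact (by fun_prop : ContDiff ℝ ω fun q : ℝ × (ℝ × ℝ) => d * q.2.1).prodMk h4

/-- closeness of all derivatives -/
theorem nD_close (k : ℕ) {ε : ℝ} (hε : 0 < ε) : ∀ᶠ e in 𝓝 (1 : ℝ), ∀ z,
    ‖iteratedFDeriv ℝ k (nD hd 1).F z - iteratedFDeriv ℝ k (nD hd e).F z‖ < ε := by
  refine close (Φ := fun e => (nD hd e).F) ((nD_contDiff hd).of_le le_top) ?_ ?_ k hε
  · intro e z
    have a1 : z + ((1 : ℝ), (0 : ℝ)) = (z.1 + 1, z.2) := by ext <;> simp
    rw [a1, (nD hd e).F_add_one_left, (nD hd 1).F_add_one_left]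
    ext <;> simp [nD_d]
  · intro e z
    have a1 : z + ((0 : ℝ), (1 : ℝ)) = (z.1, z.2 + 1) := by ext <;> simp
    rw [a1, (nD hd e).F_add_one_right, (nD hd 1).F_add_one_right]
    ext <;> simp [nD_m]

end Pool.Agent.Y965.SE
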