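import Pool.Agent.Y965.SE.Fam

/-!
# Passage to the Klein bottle
-/

set_option autoImplicit false

open Set Filter Topology MeasureTheory Function
open scoped ContDiff ENNReal Real

namespace Pool.Agent.Y965.SE

open Pool.Agent.H165R3

lemma flp_flp (w : T2) : flp (flp w) = w := by
  obtain ⟨z, rfl⟩ := pr_surj w
  rw [flp_pr, flp_pr]
  simp only [neg_neg]
  have := pr_add_left z.1 z.2 1
  push_cast at this
  rw [← show z.1 + 1 = z.1 + 1 / 2 + 1 / 2 by ring, this]

lemma flp_cont : Continuous flp := by unfold flp; fun_prop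

lemma flp_mp : MeasurePreserving flp (volume : Measure T2) volume :=
  (measurePreserving_add_right (volume : Measure UnitAddCircle) _).prod
    (Measure.measurePreserving_neg (volume : Measure UnitAddCircle))

/-- `q` is the projection onto the quotient by the involution -/
structure KQ {K : Type} [TopologicalSpace K] [MeasurableSpace K] (q : T2 → K) : Prop where
  surj : Surjective q
  eq_iff : ∀ v w, q v = q w ↔ w = v ∨ w = flp v
  open_iff : ∀ s : Set K, IsOpen s ↔ IsOpen (q ⁻¹' s)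
  meas_iff : ∀ s : Set K, MeasurableSet s ↔ MeasurableSet (q ⁻¹' s)

variable {K : Type} [TopologicalSpace K] [MeasurableSpace K] {q : T2 → K} (hq : KQ q)

include hq

lemma KQ.flp (v : T2) : q (flp v) = q v := ((hq.eq_iff v (SE.flp v)).2 (Or.inr rfl)).symm

lemma KQ.cont : Continuous q := ⟨fun s hs => (hq.open_iff s).1 hs⟩
lemma KQ.meas : Measurable q := fun s hs => (hq.meas_iff s).1 hs

lemma KQ.mp : MeasurePreserving q volume (Measure.map q volume) := ⟨hq.meas, rfl⟩

lemma KQ.pre {S : Set T2} (hS : SE.flp ⁻¹' S = S) : q ⁻¹' (q '' S) = S := by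
  ext w
  constructor
  · rintro ⟨v, hv, he⟩
    rcases (hq.eq_iff v w).1 he with rfl | rfl
    · exact hv
    · rw [← hS] at hv
      exact hv
  · exact fun h => ⟨w, h, rfl⟩

/-- the map of the quotient -/
noncomputable def dn (f : T2 → T2) (κ : K) : K := q (f (surjInv hq.surj κ))

omit hq in
lemma dn_q (hq : KQ q) {f : T2 → T2} (hf : ∀ w, f (flp w) = flp (f w)) (w : T2) :
    dn hq f (q w) = q (f w) := by
  unfold dn
  have h := surjInv_eq hq.surj (q w)
  set v := surjInv hq.surj (q w) with hv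
  rcases (hq.eq_iff v w).1 h with h2 | h2
  · rw [h2]
  · rw [h2, hf, hq.flp]

lemma dn_meas {f : T2 → T2} (hf : ∀ w, f (flp w) = flp (f w)) (hm : Measurable f) :
    Measurable (dn hq f) := by
  intro s hs
  rw [hq.meas_iff]
  have : q ⁻¹' (dn hq f ⁻¹' s) = f ⁻¹' (q ⁻¹' s) := by
    ext w
    simp only [mem_preimage, dn_q hq hf]
  rw [this]
  exact hm (hq.meas hs)

lemma dn_mp {f : T2 → T2} (hf : ∀ w, f (flp w) = flp (f w))
    (hm : MeasurePreserving f (volume : Measure T2) volume) :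
    MeasurePreserving (dn hq f) (Measure.map q volume) (Measure.map q volume) := by
  refine ⟨dn_meas hq hf hm.measurable, ?_⟩
  rw [Measure.map_map (dn_meas hq hf hm.measurable) hq.meas]
  have : dn hq f ∘ q = q ∘ f := funext fun w => dn_q hq hf w
  rw [this, ← Measure.map_map hq.meas hm.measurable, hm.map_eq]

lemma dn_erg {f : T2 → T2} (hf : ∀ w, f (flp w) = flp (f w))
    (he : Ergodic f (volume : Measure T2)) : Ergodic (dn hq f) (Measure.map q volume) := by
  refine ⟨dn_mp hq hf he.toMeasurePreserving, ?_⟩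
  refine hq.mp.preErgodic_of_preErgodic_semiconj he.toPreErgodic ?_
  intro w
  exact (dn_q hq hf w).symm

omit hq in
lemma dn_it (hq : KQ q) {f : T2 → T2} (hf : ∀ w, f (flp w) = flp (f w)) (w : T2) (n : ℕ) :
    (dn hq f)^[n] (q w) = q (f^[n] w) := by
  induction n with
  | zero => rfl
  | succ n ih => rw [iterate_succ_apply', ih, dn_q hq hf, iterate_succ_apply']

lemma dn_dense {f : T2 → T2} (hf : ∀ w, f (flp w) = flp (f w))
    (hd : ∃ w, Dense (range fun n : ℕ => f^[n] w)) :
    ∃ κ, Dense (range fun n : ℕ => (dn hq f)^[n] κ) := by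
  obtain ⟨w, hw⟩ := hd
  refine ⟨q w, ?_⟩
  have h1 := hq.surj.denseRange.dense_image hq.cont hw
  have : q '' (range fun n : ℕ => f^[n] w) = range fun n : ℕ => (dn hq f)^[n] (q w) := by
    ext κ
    constructor
    · rintro ⟨_, ⟨n, rfl⟩, rfl⟩
      exact ⟨n, dn_it hq hf w n⟩
    · rintro ⟨n, rfl⟩
      exact ⟨_, ⟨n, rfl⟩, (dn_it hq hf w n).symm⟩
  rwa [this] at h1

lemma dn_ae {P : T2 → Prop} {R : K → Prop} (hP : ∀ᵐ w ∂(volume : Measure T2), P w)
    (hR : ∀ w, P w → P (flp w) → R (q w)) : ∀ᵐ κ ∂(Measure.map q volume), R κ := by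
  set N : Set T2 := toMeasurable volume {w | ¬ P w} with hN
  have hN0 : (volume : Measure T2) N = 0 := by rw [hN, measure_toMeasurable]; exact hP
  have hNm : MeasurableSet N := measurableSet_toMeasurable _ _
  set N2 : Set T2 := N ∪ flp ⁻¹' N with hN2
  have hinv : flp ⁻¹' N2 = N2 := by
    rw [hN2, preimage_union, ← preimage_comp, show flp ∘ flp = id from funext flp_flp,
      preimage_id, union_comm]
  have hm2 : MeasurableSet N2 := hNm.union (flp_cont.measurable hNm)
  have h0 : (volume : Measure T2) N2 = 0 := by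
    rw [hN2]
    refine measure_union_null hN0 ?_
    rw [flp_mp.measure_preimage hNm.nullMeasurableSet, hN0]
  have hpre := hq.pre hinv
  have hmK : MeasurableSet (q '' N2) := by rw [hq.meas_iff, hpre]; exact hm2
  have hz : Measure.map q volume (q '' N2) = 0 := by
    rw [Measure.map_apply hq.meas hmK, hpre, h0]
  refine measure_mono_null ?_ hz
  intro κ hκ
  obtain ⟨w, rfl⟩ := hq.surj κ
  refine ⟨w, ?_, rfl⟩
  by_contra hw
  apply hκ
  refine hR w ?_ ?_
  · by_contra h
    exact hw (Or.inl (subset_toMeasurable _ _ h))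
  · by_contra h
    exact hw (Or.inr (subset_toMeasurable _ _ h))

/-- open invariant sets exclude transitivity and ergodicity -/
lemma dn_no {f : T2 → T2} (hf : ∀ w, f (flp w) = flp (f w))
    (h : ∃ A B : Set T2, IsOpen A ∧ IsOpen B ∧ A.Nonempty ∧ B.Nonempty ∧ B ⊆ Aᶜ ∧
      f ⁻¹' A = A ∧ flp ⁻¹' A = A ∧ flp ⁻¹' B = B) :
    (¬ Ergodic (dn hq f) (Measure.map q volume)) ∧
      ¬ ∃ κ, Dense (range fun n : ℕ => (dn hq f)^[n] κ) := by
  obtain ⟨A, B, hA, hB, hAn, hBn, hAB, hfA, hgA, hgB⟩ := h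
  have pA := hq.pre hgA
  have pB := hq.pre hgB
  have oA : IsOpen (q '' A) := by rw [hq.open_iff, pA]; exact hA
  have oB : IsOpen (q '' B) := by rw [hq.open_iff, pB]; exact hB
  have mA : MeasurableSet (q '' A) := by rw [hq.meas_iff, pA]; exact hA.measurableSet
  have hinv : dn hq f ⁻¹' (q '' A) = q '' A := by
    ext κ
    obtain ⟨w, rfl⟩ := hq.surj κ
    rw [mem_preimage, dn_q hq hf]
    have a1 : q (f w) ∈ q '' A ↔ f w ∈ A := by
      rw [← mem_preimage (f := q), pA]
    have a2 : q w ∈ q '' A ↔ w ∈ A := by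
      rw [← mem_preimage (f := q), pA]
    rw [a1, a2, ← mem_preimage (f := f), hfA]
  have hdis : q '' B ⊆ (q '' A)ᶜ := by
    rintro _ ⟨w, hw, rfl⟩ hw2
    have a2 : q w ∈ q '' A ↔ w ∈ A := by
      rw [← mem_preimage (f := q), pA]
    exact hAB hw (a2.1 hw2)
  constructor
  · intro he
    rcases he.toPreErgodic.ae_empty_or_univ mA hinv with h2 | h2
    · have h3 : Measure.map q volume (q '' A) = 0 := by rw [measure_congr h2, measure_empty]
      rw [Measure.map_apply hq.meas mA, pA] at h3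
      exact (hA.measure_pos volume hAn).ne' h3
    · have h3 : Measure.map q volume (q '' A)ᶜ = 0 := eventuallyEq_univ.mp h2
      rw [Measure.map_apply hq.meas mA.compl, preimage_compl, pA] at h3
      exact (hB.measure_pos volume hBn).ne' (measure_mono_null hAB h3)
  · rintro ⟨κ, hκ⟩
    have hit : ∀ n, (dn hq f)^[n] ⁻¹' (q '' A) = q '' A := by
      intro n
      induction n with
      | zero => rfl
      | succ n ih => rw [iterate_succ, preimage_comp, ih, hinv]
    obtain ⟨x, hxA, ⟨n, rfl⟩⟩ := hκ.inter_open_nonempty _ oA (hAn.image q)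
    obtain ⟨y, hyB, ⟨m, rfl⟩⟩ := hκ.inter_open_nonempty _ oB (hBn.image q)
    have h2 : κ ∈ q '' A := by rw [← hit n]; exact hxA
    have h3 : κ ∉ q '' A := by rw [← hit m]; exact hdis hyB
    exact h3 h2

omit hq in
/-- the fibre maps are odd under the involution -/
lemma nD_h_flip {d : ℕ} (hd : 3 ≤ d) (e x y : ℝ) :
    (nD hd e).h (x + 1 / 2, -y) = -(nD hd e).h (x, y) := by
  have hd' := d0 hd
  apply ((nD hd e).k_strictMono (d * (x + 1 / 2))).injective
  simp only
  have h1 := (nD hd e).k_gh (x + 1 / 2, -y)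
  have h2 := (nD hd e).k_gh (x, y)
  rw [nD_g] at h1 h2
  simp only at h1 h2
  rw [h1]
  set t := (nD hd e).h (x, y) with ht
  rw [nD_k] at h2 ⊢
  simp only at h2 ⊢
  have e1 : 2 * π * (d * (x + 1 / 2)) / d = 2 * π * (d * x) / d + π := by
    field_simp
  have e2 : 2 * π * -t = -(2 * π * t) := by ring
  rw [e1, e2, Real.cos_add_pi, Real.cos_neg]
  linarith

omit hq in
lemma nD_flip {d : ℕ} (hd : 3 ≤ d) (ho : Odd d) (e : ℝ) (w : T2) :
    (nD hd e).f (flp w) = flp ((nD hd e).f w) := by
  obtain ⟨z, rfl⟩ := pr_surj w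
  rw [flp_pr, Sk.f_pr, Sk.f_pr, flp_pr, nD_F, nD_F]
  simp only
  rw [nD_h_flip]
  obtain ⟨m, hm⟩ := ho
  have := pr_add_left (d * z.1 + 1 / 2) (-(nD hd e).h (z.1, z.2)) m
  rw [← show (nD hd e).h z = (nD hd e).h (z.1, z.2) from rfl] at this ⊢
  rw [← this]
  congr 2
  have : (d : ℝ) = 2 * m + 1 := by exact_mod_cast hm
  push_cast
  linear_combination (1 / 2) * this

/-- the maps of the quotient are not injective -/
lemma dn_not_inj {d : ℕ} (hd : 3 ≤ d) (ho : Odd d) (δ : ℝ) :
    ¬ Injective (dn hq (nD hd (Real.cos (2 * π * δ))).f) := by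
  set s := nD hd (Real.cos (2 * π * δ)) with hs
  intro hinj
  have hfix : ∀ x, s.h (x, δ) = δ := by
    intro x
    apply (s.k_strictMono (s.g x)).injective
    have := s.k_gh (x, δ)
    simp only at this ⊢
    rw [this]
    exact (nD_k_fix hd _ δ rfl).symm
  have hd' := d0 hd
  have hd3 : (3 : ℝ) ≤ d := by exact_mod_cast hd
  have h1 : s.f (pr (0, δ)) = s.f (pr (1 / d, δ)) := by
    rw [s.f_pr, s.f_pr, hs, nD_F, nD_F, ← hs, hfix, hfix]
    have := pr_add_left 0 δ 1
    push_cast at this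
    simp only [mul_zero]
    rw [← this]
    congr 2
    field_simp
    simp
  have h2 : q (pr (0, δ)) = q (pr (1 / d, δ)) := by
    apply hinj
    rw [dn_q hq (nD_flip hd ho _), dn_q hq (nD_flip hd ho _), h1]
  have b1 : 0 < 1 / (d : ℝ) := by positivity
  have b2 : 1 / (d : ℝ) < 1 / 2 := one_div_lt_one_div_of_lt (by norm_num) (by linarith)
  rcases (hq.eq_iff _ _).1 h2 with h | h
  · have h3 : ((1 / d : ℝ) : UnitAddCircle) = ((0 : ℝ) : UnitAddCircle) := congrArg Prod.fst h
    obtain ⟨n, hn⟩ := coe_eq_iff.mp h3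
    have a1 : (0 : ℝ) < n := by linarith
    have a2 : (n : ℝ) < 1 := by linarith
    have a3 : 0 < n := by exact_mod_cast a1
    have a4 : n < 1 := by exact_mod_cast a2
    omega
  · rw [flp_pr] at h
    have h3 : ((1 / d : ℝ) : UnitAddCircle) = ((0 + 1 / 2 : ℝ) : UnitAddCircle) :=
      congrArg Prod.fst h
    obtain ⟨n, hn⟩ := coe_eq_iff.mp h3
    have a1 : (n : ℝ) < 0 := by linarith
    have a2 : (-1 : ℝ) < n := by linarith
    have a3 : n < 0 := by exact_mod_cast a1
    have a4 : -1 < n := by exact_mod_cast a2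
    omega

end Pool.Agent.Y965.SE
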